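import Pool.Agent.N236.UR.Stm4
import Pool.Agent.N106.UR.EPow

/-!
UR/GL1 (project UR of helper236): exponents prime to `q - 1` are good.
-/

set_option autoImplicit false

namespace Pool.Agent.N360.UR

open Pool.Agent.N236.UB Pool.Agent.N236.UR Pool.Agent.N56.UB Pool.Agent.N106.UR

variable {L : Type} [Field L] {v : AbsoluteValue L ℝ}

lemma val_sum_lt (hna : ∀ x y : L, v (x + y) ≤ max (v x) (v y)) {s : Finset ℕ} {f : ℕ → L} {C : ℝ}
    (hC : 0 < C) (h : ∀ i ∈ s, v (f i) < C) : v (∑ i ∈ s, f i) < C := by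
  classical
  induction s using Finset.induction_on with
  | empty => simpa using hC
  | insert a s ha ih =>
    rw [Finset.sum_insert ha]
    exact (hna _ _).trans_lt (max_lt (h _ (Finset.mem_insert_self _ _))
      (ih fun i hi => h i (Finset.mem_insert_of_mem hi)))

lemma bern (a s : ℕ) : 1 + s * a ≤ (a + 1) ^ s := by
  induction s with
  | zero => simp
  | succ s ih =>
    rw [pow_succ]
    have h1 : 1 ≤ (a + 1) ^ s := Nat.one_le_pow _ _ (by omega)
    nlinarith [mul_le_mul_of_nonneg_right h1 (Nat.zero_le a)]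

lemma val_nat_eq (hna : ∀ x y : L, v (x + y) ≤ max (v x) (v y)) {p : ℕ} (hpp : p.Prime)
    (hp : v (p : L) < 1) {n : ℕ} (hn : 1 ≤ n) : ∃ s : ℕ, p ^ s ≤ n ∧ v (n : L) = v (p : L) ^ s := by
  obtain ⟨s, m, hm, hs⟩ := Nat.exists_eq_pow_mul_and_not_dvd (n := n) (by omega) p hpp.ne_one
  refine ⟨s, Nat.le_of_dvd hn ⟨m, hs⟩, ?_⟩
  rw [hs, Nat.cast_mul, Nat.cast_pow, map_mul, map_pow,
    val_nat_one hna hp ((Nat.Prime.coprime_iff_not_dvd hpp).2 hm), mul_one]

theorem t_gl1 : S_GL1 := by
  intro L _ v p q e l hL hpp hl hcop hor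
  obtain ⟨hna, ⟨w, hw0, hw1, hwm, hwe⟩, hp1, O, k, _, _, red, hO, hred, hsurj, hcard⟩ := hL
  have hpe : 0 < v (p : L) := lt_of_lt_of_le (pow_pos hw0 e) hwe
  have hvl : 0 < v (l : L) := by
    obtain ⟨s, _, hs⟩ := val_nat_eq hna hpp hp1 (show 1 ≤ l by omega)
    rw [hs]
    exact pow_pos hpe s
  refine ⟨hl, ?_, ?_, ?_⟩
  · intro h
    rw [h, map_zero] at hvl
    exact lt_irrefl _ hvl
  · intro x hx hx1
    have hle : v (x ^ l - 1) ≤ 1 := by
      have h1 := hna (x ^ l) (-1)
      rw [v.map_neg, map_one, map_pow, hx, one_pow, max_self, ← sub_eq_add_neg] at h1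
      exact h1
    by_contra hne
    have hlt : v (x ^ l - 1) < 1 := lt_of_le_of_ne hle hne
    let X : O := ⟨x, (hO x).mpr hx.le⟩
    have hy0 : red X ≠ 0 := by
      intro h
      have := (hred X).mp h
      rw [show ((X : O) : L) = x from rfl, hx] at this
      exact lt_irrefl _ this
    have h1 : red X ^ l = 1 := by
      have h2 : red (X ^ l - 1) = 0 := by
        rw [hred]
        exact hlt
      rw [map_sub, map_pow, map_one, sub_eq_zero] at h2
      exact h2
    have h2 : red X ^ (q - 1) = 1 := by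
      rw [← hcard]
      exact FiniteField.pow_card_sub_one_eq_one _ hy0
    have h3 : red X ^ (Nat.gcd l (q - 1)) = 1 := pow_gcd_eq_one.mpr ⟨h1, h2⟩
    rw [hcop, pow_one] at h3
    have h4 : red (X - 1) = 0 := by rw [map_sub, map_one, h3, sub_self]
    have h5 := (hred _).mp h4
    have h6 : ((X - 1 : O) : L) = x - 1 := rfl
    rw [h6, hx1] at h5
    exact lt_irrefl _ h5
  · intro x hx hx1
    obtain ⟨t, rfl⟩ : ∃ t, x = t + 1 := ⟨x - 1, by ring⟩
    rw [add_sub_cancel_right] at hx ⊢
    have ht0 : t ≠ 0 := by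
      intro h
      apply hx1
      rw [h, zero_add]
    have hvt : 0 < v t := v.pos ht0
    obtain ⟨r, hr⟩ : ∃ r, l = r + 1 := ⟨l - 1, by omega⟩
    have hexp : (t + 1) ^ l - 1 - (l : L) * t =
        ∑ j ∈ Finset.range r, t ^ (j + 2) * ((l.choose (j + 2) : ℕ) : L) := by
      rw [add_pow]
      rw [show l + 1 = r + 1 + 1 by omega, Finset.sum_range_succ', Finset.sum_range_succ']
      simp only [one_pow, mul_one, zero_add, pow_one, pow_zero, Nat.choose_zero_right,
        Nat.choose_one_right, Nat.cast_one]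
      ring
    rw [hexp]
    have hpos : 0 < v ((l : L) * t) := by
      rw [map_mul]
      exact mul_pos hvl hvt
    refine val_sum_lt hna hpos fun j hj => ?_
    have hjr := Finset.mem_range.mp hj
    rw [map_mul, map_pow, map_mul]
    rcases hor with hpl | hep
    · rw [val_nat_one hna hp1 ((Nat.Prime.coprime_iff_not_dvd hpp).2 hpl), one_mul]
      calc v t ^ (j + 2) * v ((l.choose (j + 2) : ℕ) : L) ≤ v t ^ (j + 2) * 1 := by
            gcongr
            exact val_nat hna _
        _ = v t ^ (j + 1) * v t := by ring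
        _ < 1 * v t := by
            gcongr
            exact pow_lt_one₀ (v.nonneg _) hx (by omega)
        _ = v t := one_mul _
    · -- the general case
      obtain ⟨s, hs, hvs⟩ := val_nat_eq hna hpp hp1 (show 1 ≤ j + 2 by omega)
      have hch : (j + 2) * l.choose (j + 2) = l * (l - 1).choose (j + 1) := by
        have := Nat.add_one_mul_choose_eq r (j + 1)
        rw [hr, Nat.add_sub_cancel]
        rw [mul_comm (j + 2)]
        exact this.symm
      have hvj : 0 < v ((j + 2 : ℕ) : L) := by
        rw [hvs]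
        exact pow_pos hpe s
      have h1 : v ((j + 2 : ℕ) : L) * v ((l.choose (j + 2) : ℕ) : L) ≤ v (l : L) := by
        rw [← map_mul, ← Nat.cast_mul, hch, Nat.cast_mul, map_mul]
        exact mul_le_of_le_one_right (v.nonneg _) (val_nat hna _)
      have hes : e * s < j + 1 := by
        rcases Nat.eq_zero_or_pos s with h0 | h0
        · rw [h0]; omega
        · have h2 := bern (p - 1) s
          have h3 : p - 1 + 1 = p := by have := hpp.two_le; omega
          rw [h3] at h2
          have h4 : e * s < s * (p - 1) := by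
            rw [mul_comm e]
            exact Nat.mul_lt_mul_of_pos_left (by omega) h0
          omega
      have h2 : v t ^ (j + 1) < v ((j + 2 : ℕ) : L) := by
        calc v t ^ (j + 1) ≤ v w ^ (j + 1) := by
              gcongr
              exact hwm t hx
          _ < v w ^ (e * s) := pow_lt_pow_right_of_lt_one₀ hw0 hw1 hes
          _ = (v w ^ e) ^ s := pow_mul _ _ _
          _ ≤ v (p : L) ^ s := by gcongr
          _ = v ((j + 2 : ℕ) : L) := hvs.symm
      have h3 : v t ^ (j + 2) = v t ^ (j + 1) * v t := by ring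
      rw [h3]
      have h4 : v ((j + 2 : ℕ) : L) * (v t ^ (j + 1) * v t * v ((l.choose (j + 2) : ℕ) : L)) <
          v ((j + 2 : ℕ) : L) * (v (l : L) * v t) := by
        calc v ((j + 2 : ℕ) : L) * (v t ^ (j + 1) * v t * v ((l.choose (j + 2) : ℕ) : L))
            = v t ^ (j + 1) * (v ((j + 2 : ℕ) : L) * v ((l.choose (j + 2) : ℕ) : L)) * v t := by ring
          _ ≤ v t ^ (j + 1) * v (l : L) * v t := by gcongr
          _ < v ((j + 2 : ℕ) : L) * v (l : L) * v t := by gcongr
          _ = _ := by ring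
      exact lt_of_mul_lt_mul_left h4 hvj.le

end Pool.Agent.N360.UR
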